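import Pool.Agent.H77.KG.Defs

/-!
# Basic lemmas (board kgr_modules)
-/

set_option autoImplicit false

open Set Pool.Agent.H77.BC Pool.Agent.H77.BD

namespace Pool.Agent.H77.KG

variable {M : Type} {U : RU M} {α β γ : Type} [Cod M α] [Cod M β] [Cod M γ]

/-! ## Subtypes -/

theorem c_sub {p : α → Prop} (X : Set {x : α // p x}) :
    Cod.c (M := M) '' X = Cod.c (M := M) '' (Subtype.val '' X) := by
  rw [image_image]; rfl

theorem D_sub {p : α → Prop} (X : Set {x : α // p x}) : U.D X ↔ U.D (Subtype.val '' X) := by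
  unfold RU.D
  rw [c_sub]; rfl

theorem R_sub {p : α → Prop} (X : Set {x : α // p x}) : U.R X = U.R (Subtype.val '' X) := by
  unfold RU.R
  rw [c_sub]; rfl

theorem ful_sub {p : α → Prop} (h : U.D {x : α | p x}) : Ful U {x : α // p x} := ⟨by
  rw [D_sub]
  have : Subtype.val '' (univ : Set {x : α // p x}) = {x : α | p x} := by
    ext x; simp
  rw [this]; exact h⟩

theorem R_sub_univ {p : α → Prop} : U.R (univ : Set {x : α // p x}) = U.R {x : α | p x} := by
  rw [R_sub]
  have : Subtype.val '' (univ : Set {x : α // p x}) = {x : α | p x} := by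
    ext x; simp
  rw [this]

theorem DFn_sval' {p : α → Prop} [Ful U α] (h : U.D {x : α | p x}) :
    DFn U (fun x : {x : α // p x} => x.1) := by
  have : Ful U {x : α // p x} := ful_sub h
  exact DFn_of_code (fun i => i) (fun a => rfl)

/-- maps to a subset -/
theorem DFn_smk {p : β → Prop} [Ful U α] [Ful U β] (h : U.D {x : β | p x})
    {f : α → {x : β // p x}} (hf : DFn U (fun a => (f a).1)) : DFn U f := by
  have : Ful U {x : β // p x} := ful_sub h
  have h1 : U.D {z : α × {x : β // p x} | z.2.1 = (f z.1).1} :=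
    D_eqf (f := fun z : α × {x : β // p x} => z.2.1) (g := fun z => (f z.1).1)
      (DFn_comp (g := fun x : {x : β // p x} => x.1) (DFn_sval' h) DFn_snd)
      (DFn_comp (g := fun a => (f a).1) hf DFn_fst)
  have h2 : {z : α × {x : β // p x} | z.2 = f z.1} =
      {z : α × {x : β // p x} | z.2.1 = (f z.1).1} := by
    ext z; exact ⟨fun h => congrArg Subtype.val h, fun h => Subtype.ext h⟩
  unfold DFn
  rw [h2]; exact h1

theorem dgSub {Γ : Type} [Group Γ] [Cod M Γ] [DG U Γ] (H : Subgroup Γ) (h : U.D (H : Set Γ)) :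
    DG U H := by
  have hf : Ful U {x : Γ // x ∈ H} := ful_sub h
  have h0 : DFn U (fun x : {x : Γ // x ∈ H} => x.1) := DFn_sval' h
  have h1 : DFn U (fun z : {x : Γ // x ∈ H} × {x : Γ // x ∈ H} => z.1.1) :=
    DFn_comp (g := fun x : {x : Γ // x ∈ H} => x.1) h0 DFn_fst
  have h2 : DFn U (fun z : {x : Γ // x ∈ H} × {x : Γ // x ∈ H} => z.2.1) :=
    DFn_comp (g := fun x : {x : Γ // x ∈ H} => x.1) h0 DFn_snd
  have h3 : DFn U (fun z : {x : Γ // x ∈ H} × {x : Γ // x ∈ H} => z.1.1 * z.2.1) := DFn_gmul h1 h2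
  exact ⟨DFn_smk (p := fun x => x ∈ H) h h3⟩

/-! ## Actions -/

section act

variable {G S : Type} [Group G] [MulAction G S] [Cod M G] [Cod M S] [DG U G] [Ful U S]
  [DA U G S]

theorem DFn_act {f : α → G} {s : α → S} (hf : DFn U f) (hs : DFn U s) [Ful U α] :
    DFn U (fun a => f a • s a) :=
  DFn_comp (f := fun a => (f a, s a)) DA.act (DFn_pair hf hs)

theorem DFn_fin {k : ℕ} (i : Fin k) : DFn U (fun x : Fin k → S => x i) := DFn_apply i

/-- the tuples which are not in the orbit of `s` -/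
theorem D_bad {μ : ℕ} (s : Fin μ → S) : U.D {x : Fin μ → S | ¬ ∃ g : G, ∀ i, x i = g • s i} := by
  refine D_not (D_exists (p := fun (x : Fin μ → S) (g : G) => ∀ i, x i = g • s i) ?_)
  exact D_forall_fin (p := fun (i : Fin μ) (z : (Fin μ → S) × G) => z.1 i = z.2 • s i)
    fun i => D_eqf (DFn_comp (DFn_apply i) DFn_fst) (DFn_act DFn_snd (DFn_const _))

theorem D_stab (s : S) : U.D ((MulAction.stabilizer G s : Subgroup G) : Set G) := by
  have h : U.D {g : G | g • s = s} := D_eqf (DFn_act DFn_id (DFn_const _)) (DFn_const _)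
  exact h

theorem D_orb (s : S) : U.D (MulAction.orbit G s) := by
  have h : U.D {y : S | ∃ g : G, g • s = y} :=
    D_exists (p := fun (y : S) (g : G) => g • s = y)
      (D_eqf (DFn_act DFn_snd (DFn_const _)) DFn_fst)
  exact h

end act

/-! ## Abelian groups -/

section ab

variable {V : Type} [AddCommGroup V] [Cod M V] [DAb U V]

theorem DFn_aadd {f g : α → V} (hf : DFn U f) (hg : DFn U g) [Ful U α] :
    DFn U (fun a => f a + g a) :=
  DFn_comp (f := fun a => (f a, g a)) DAb.add (DFn_pair hf hg)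

theorem DFn_aneg {f : α → V} (hf : DFn U f) [Ful U α] : DFn U (fun a => - f a) := by
  have h : U.D {z : α × V | f z.1 + z.2 = 0} :=
    D_eqf (DFn_aadd (DFn_comp hf DFn_fst) DFn_snd) (DFn_const _)
  have h2 : {z : α × V | z.2 = - f z.1} = {z : α × V | f z.1 + z.2 = 0} := by
    ext z
    simp only [mem_ofPred_eq]
    rw [eq_neg_iff_add_eq_zero, add_comm]
  unfold DFn
  rw [h2]; exact h

theorem DFn_asub {f g : α → V} (hf : DFn U f) (hg : DFn U g) [Ful U α] :
    DFn U (fun a => f a - g a) := by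
  simp only [sub_eq_add_neg]
  exact DFn_aadd hf (DFn_aneg hg)

theorem DFn_asum {κ : Type} (s : Finset κ) {f : κ → α → V} [Ful U α]
    (hf : ∀ k ∈ s, DFn U (f k)) : DFn U (fun a => ∑ k ∈ s, f k a) := by
  classical
  induction s using Finset.induction_on with
  | empty => simp only [Finset.sum_empty]; exact DFn_const _
  | insert k s hk ih =>
    simp only [Finset.sum_insert hk]
    exact DFn_aadd (hf k (Finset.mem_insert_self k s))
      (ih fun j hj => hf j (Finset.mem_insert_of_mem hj))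

end ab

/-! ## Universes with the same definable sets -/

section same

variable {M' : Type} {U' : RU M'}

theorem Same.conn {Γ : Type} [Group Γ] [Cod M Γ] [Cod M' Γ] (h : Same U U' Γ) (H : Subgroup Γ) :
    Conn U' H ↔ Conn U H := by
  constructor
  · rintro ⟨h1, h2⟩
    refine ⟨(h.D _).1 h1, fun L hL hd hr => h2 L hL ((h.D _).2 hd) ?_⟩
    rw [h.R _ ((h.D _).1 h1) ⟨1, H.one_mem⟩, h.R _ hd ⟨1, L.one_mem⟩]
    exact hr
  · rintro ⟨h1, h2⟩
    refine ⟨(h.D _).2 h1, fun L hL hd hr => h2 L hL ((h.D _).1 hd) ?_⟩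
    rw [h.R _ h1 ⟨1, H.one_mem⟩, h.R _ ((h.D _).1 hd) ⟨1, L.one_mem⟩] at hr
    exact hr

theorem Same.cns {V : Type} [AddCommGroup V] [Cod M V] [Cod M' V] (h : Same U U' V)
    (A : AddSubgroup V) : CnS U' A ↔ CnS U A := by
  constructor
  · rintro ⟨h1, h2⟩
    refine ⟨(h.D _).1 h1, fun L hL hd hr => h2 L hL ((h.D _).2 hd) ?_⟩
    rw [h.R _ ((h.D _).1 h1) ⟨0, A.zero_mem⟩, h.R _ hd ⟨0, L.zero_mem⟩]
    exact hr
  · rintro ⟨h1, h2⟩
    refine ⟨(h.D _).2 h1, fun L hL hd hr => h2 L hL ((h.D _).1 hd) ?_⟩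
    rw [h.R _ h1 ⟨0, A.zero_mem⟩, h.R _ ((h.D _).1 hd) ⟨0, L.zero_mem⟩] at hr
    exact hr

theorem Same.mn {G V : Type} [Group G] [AddCommGroup V] [DistribMulAction G V] [Cod M V]
    [Cod M' V] (h : Same U U' V) (T : Subgroup G) (W : AddSubgroup V) :
    Mn U' T W ↔ Mn U T W := by
  unfold Mn
  simp only [h.D]

theorem Same.gt {G S : Type} [Group G] [MulAction G S] [Cod M G] [Cod M S] [DG U G]
    [Ful U S] [DA U G S] [Cod M' S] {μ : ℕ} (h : Same U U' (Fin μ → S)) : GT U' G S μ ↔ GT U G S μ := by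
  have h3 : ∀ s : Fin μ → S, U'.R (univ : Set (Fin μ → S)) = U.R (univ : Set (Fin μ → S)) :=
    fun s => h.R _ Ful.full ⟨s, mem_univ _⟩
  constructor
  · rintro ⟨s, hs⟩
    refine ⟨s, fun hn => ?_⟩
    have h1 := hs hn
    rw [h.R _ (D_bad s) hn, h3 s] at h1
    exact h1
  · rintro ⟨s, hs⟩
    refine ⟨s, fun hn => ?_⟩
    have h1 := hs hn
    rw [h.R _ (D_bad s) hn, h3 s]
    exact h1

end same

end Pool.Agent.H77.KG
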