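import Pool.Agent.H77.BDS.Asm

/-!
# Classes of ranked universes closed under quotients (board kgr_modules, page H77_KGR.md)
-/

set_option autoImplicit false

open Set Pool.Agent.H77.BC Pool.Agent.H77.BD

namespace Pool.Agent.H77.KG

/-- the ranked universe `U'` extends the ranked universe `U` -/
structure Ext {M M' : Type} (U : RU M) (U' : RU M') (e : M → M') : Prop where
  inj : Function.Injective e
  defn : ∀ (ι : Type) [Finite ι] (A : Set (ι → M)),
    U'.Def ι ((fun x => e ∘ x) '' A) ↔ U.Def ι A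
  rank : ∀ (ι : Type) [Finite ι] (A : Set (ι → M)), U.Def ι A → A.Nonempty →
    U'.rk ι ((fun x => e ∘ x) '' A) = U.rk ι A

/-- the class `C` of ranked universes is closed under quotients: if `E` is a definable equivalence
relation on `M ^ ι`, then the universe can be extended such that it contains the quotient -/
def QClosed (C : ∀ M : Type, RU M → Prop) : Prop := ∀ (M : Type) (U : RU M), C M U →
  ∀ (ι : Type) [Finite ι] (E : Setoid (ι → M)),
    U.Def (ι ⊕ ι) {z | E.r (z ∘ Sum.inl) (z ∘ Sum.inr)} →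
    ∃ (M' : Type) (U' : RU M') (e : M → M') (q : (ι → M) → M'), C M' U' ∧ Ext U U' e ∧
      (∀ x y, q x = q y ↔ E.r x y) ∧
      U'.Def (ι ⊕ Unit) {z | ∃ x : ι → M, z ∘ Sum.inl = e ∘ x ∧ z (Sum.inr ()) = q x}

/-- codes in an extension -/
@[reducible] def codE {M M' α : Type} [Cod M α] {e : M → M'} (he : Function.Injective e) :
    Cod M' α :=
  ⟨Cod.ι M α, inferInstance, fun a => e ∘ Cod.c a, fun _ _ h =>
    Cod.inj (M := M) (he.comp_left h)⟩

/-- codes of the elements of a subset -/
instance codSub {M α : Type} [Cod M α] {p : α → Prop} : Cod M {x : α // p x} :=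
  ⟨Cod.ι M α, inferInstance, fun a => Cod.c a.1, fun _ _ h =>
    Subtype.ext (Cod.inj (M := M) h)⟩

/-- `α` has the same definable sets and the same ranks in the universes `U` and `U'` -/
structure Same {M M' : Type} (U : RU M) (U' : RU M') (α : Type) [Cod M α] [Cod M' α] : Prop where
  D : ∀ X : Set α, U'.D X ↔ U.D X
  R : ∀ X : Set α, U.D X → X.Nonempty → U'.R X = U.R X

/-- generic `μ`-transitivity of `G` on `S` -/
def GT {M : Type} (U : RU M) (G S : Type) [Group G] [MulAction G S] [Cod M S] (μ : ℕ) : Prop :=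
  ∃ s : Fin μ → S, {x : Fin μ → S | ¬ ∃ g : G, ∀ i, x i = g • s i}.Nonempty →
    U.R {x : Fin μ → S | ¬ ∃ g : G, ∀ i, x i = g • s i} < U.R (univ : Set (Fin μ → S))

/-- definable actions -/
class DA {M : Type} (U : RU M) (G S : Type) [Group G] [MulAction G S] [Cod M G] [Cod M S] :
    Prop where
  act : DFn U (fun p : G × S => p.1 • p.2)

/-- definable abelian groups -/
class DAb {M : Type} (U : RU M) (V : Type) [AddCommGroup V] [Cod M V] : Prop
    extends Ful U V where
  add : DFn U (fun p : V × V => p.1 + p.2)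

/-- connected subgroups of abelian groups -/
def CnS {M : Type} (U : RU M) {V : Type} [AddCommGroup V] [Cod M V] (A : AddSubgroup V) : Prop :=
  U.D (A : Set V) ∧ ∀ B : AddSubgroup V, B ≤ A → U.D (B : Set V) →
    U.R (A : Set V) ≤ U.R (B : Set V) → B = A

/-- the connected component of `H` -/
def cc {M : Type} (U : RU M) {Γ : Type} [Group Γ] [Cod M Γ] (H : Subgroup Γ) : Subgroup Γ :=
  sInf {L | L ≤ H ∧ U.D (L : Set Γ) ∧ U.R (H : Set Γ) ≤ U.R (L : Set Γ)}

/-- the smallest definable subgroup which contains `X` -/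
def hul {M : Type} (U : RU M) {Γ : Type} [Group Γ] [Cod M Γ] (X : Subgroup Γ) : Subgroup Γ :=
  sInf {L | X ≤ L ∧ U.D (L : Set Γ)}

/-- `T`-invariant subgroups of `V` -/
def Iv {G V : Type} [Group G] [AddCommGroup V] [DistribMulAction G V] (T : Subgroup G)
    (A : AddSubgroup V) : Prop := ∀ t ∈ T, ∀ v ∈ A, t • v ∈ A

/-- `W` is `T`-minimal: definable, `T`-invariant, infinite, and all proper definable
`T`-invariant subgroups are finite -/
def Mn {M : Type} (U : RU M) {G V : Type} [Group G] [AddCommGroup V] [DistribMulAction G V]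
    [Cod M V] (T : Subgroup G) (W : AddSubgroup V) : Prop :=
  U.D (W : Set V) ∧ Iv T W ∧ (W : Set V).Infinite ∧
    ∀ A : AddSubgroup V, A ≤ W → U.D (A : Set V) → Iv T A → A ≠ W → (A : Set V).Finite

/-- the operators on `V` generated by `T` -/
def Eg {G V : Type} [Group G] [AddCommGroup V] [DistribMulAction G V] (T : Subgroup G) :
    Subring (AddMonoid.End V) :=
  Subring.closure {f | ∃ t ∈ T, ∀ v, f v = t • v}

/-- the action of a subgroup on an invariant subgroup -/
@[reducible] def subAct {G V : Type} [Group G] [AddCommGroup V] [DistribMulAction G V]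
    (H : Subgroup G) (W : AddSubgroup V) (h : Iv H W) : DistribMulAction H W where
  smul g w := ⟨g.1 • w.1, h g.1 g.2 w.1 w.2⟩
  one_smul w := Subtype.ext (one_smul G w.1)
  mul_smul g g' w := Subtype.ext (mul_smul g.1 g'.1 w.1)
  smul_zero g := Subtype.ext (smul_zero g.1)
  smul_add g v w := Subtype.ext (smul_add g.1 v.1 w.1)

/-- `(G', S')` is the image of `(G, S)` under the definable maps `p`, `q` -/
structure Qt {M : Type} (U : RU M) {G S G' S' : Type} [Group G] [MulAction G S] [Group G']
    [MulAction G' S'] [Cod M G] [Cod M S] [Cod M G'] [Cod M S'] (p : G →* G') (q : S → S') :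
    Prop where
  sp : Function.Surjective p
  sq : Function.Surjective q
  dp : DFn U (fun g => p g)
  dq : DFn U q
  eqv : ∀ g x, q (g • x) = p g • q x

/-- every power of some element which normalizes `U1` has no fixed points in `U1` -/
def Spl {L : Type} [Group L] (U1 : Subgroup L) : Prop := ∀ k : ℕ, 1 ≤ k → ∃ d : L,
  (∀ u, u ∈ U1 ↔ d * u * d⁻¹ ∈ U1) ∧ ∀ u ∈ U1, d ^ k * u = u * d ^ k → u = 1

/-- the product of the factors in `J` -/
def Nj {G I : Type} {L : I → Type} [Group G] [∀ i, Group (L i)] (e : G ≃* ∀ i, L i)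
    (J : Set I) : Subgroup G where
  carrier := {g | ∀ i, i ∉ J → e g i = 1}
  one_mem' := fun i _ => by rw [map_one]; rfl
  mul_mem' := fun {a b} ha hb i hi => by
    rw [map_mul, Pi.mul_apply, ha i hi, hb i hi, one_mul]
  inv_mem' := fun {a} ha i hi => by rw [map_inv, Pi.inv_apply, ha i hi, inv_one]

/-- the projection to the factors in `J` -/
noncomputable def pj {G I : Type} {L : I → Type} [Group G] [∀ i, Group (L i)] (e : G ≃* ∀ i, L i)
    (J : Set I) (g : G) : G := by
  classical exact e.symm (fun i => if i ∈ J then e g i else 1)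

/-- `PSL_2` of an algebraically closed field -/
def PSL2 (L : Type) [Group L] : Prop := ∃ (F : Type) (_ : Field F) (_ : IsAlgClosed F),
  Nonempty (L ≃* Matrix.ProjectiveSpecialLinearGroup (Fin 2) F)

/-- bounds for the ranks of the proper definable subgroups of `L` and of `L` -/
def Bd {M : Type} (U : RU M) (L : Type) [Group L] [Cod M L] (c : ℕ) : Prop :=
  1 ≤ c ∧ 2 * c ≤ U.R (univ : Set L) ∧
    (∀ H : Subgroup L, U.D (H : Set L) → H ≠ ⊤ → U.R (H : Set L) + c ≤ U.R (univ : Set L)) ∧
    (U.R (univ : Set L) < c * (c + 1) ∨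
      ∃ (F : Type) (_ : Field F) (_ : IsAlgClosed F) (m f : ℕ), 1 ≤ f ∧ c = (m + 1) * f ∧
        U.R (univ : Set L) = (m + 3) * c ∧
        Nonempty (L ≃* Matrix.ProjectiveSpecialLinearGroup (Fin (m + 2)) F))

/-- classes of simple groups with the bounds -/
structure Good (P : ∀ L : Type, Group L → Prop) : Prop where
  iso : ∀ (L L' : Type) (iL : Group L) (iL' : Group L'), Nonempty (L ≃* L') → P L iL → P L' iL'
  simple : ∀ (L : Type) (iL : Group L), P L iL → IsSimpleGroup L
  noncomm : ∀ (L : Type) (iL : Group L), P L iL → ∃ a b : L, a * b ≠ b * a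
  bound : ∀ (L : Type) (iL : Group L), P L iL → ∀ {M : Type} (U : RU M) [Cod M L] [DG U L],
    ∃ c, Bd U L c

/-- extensions of a finite product of groups in `P` by a solvable group -/
def KGr (P : ∀ L : Type, Group L → Prop) (G : Type) [Group G] : Prop :=
  ∃ (I : Type) (_ : Finite I) (L : I → Type) (iL : ∀ i, Group (L i)) (π : G →* ∀ i, L i),
    Function.Surjective π ∧ Group.IsSolvable π.ker ∧ ∀ i, P (L i) (iL i)

/-- the simple algebraic groups of the types A, D, E over algebraically closed fields, as abstract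
groups -/
def SA (L : Type) (_ : Group L) : Prop := ∃ (F : Type) (_ : Field F) (_ : IsAlgClosed F),
  (∃ m : ℕ, 2 ≤ m ∧ Nonempty (L ≃* Matrix.ProjectiveSpecialLinearGroup (Fin m) F)) ∨
  ∃ (l : ℕ) (C : Matrix (Fin l) (Fin l) ℤ), Cartan C ∧ Branch C ∧ Nonempty (L ≃* Chev C F)

end Pool.Agent.H77.KG
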