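import Pool.Agent.H77.KG.Bas

/-!
# Targets (board kgr_modules, page H77_KGR.md)

Every row proves one of these statements, with other statements of this file as hypotheses.
-/

set_option autoImplicit false

open Set Pool.Agent.H77.BC Pool.Agent.H77.BD

namespace Pool.Agent.H77.KG

/-! ## A. Universes -/

/-- EXA: definable sets in an extension -/
def T_EXA : Prop := ∀ {M M' : Type} (U : RU M) (U' : RU M') (e : M → M') (h : Ext U U' e)
  {α β γ : Type} [Cod M α] [Cod M β] [Cod M γ],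
    @Same M M' U U' α _ (codE h.inj) ∧
    @Same M M' U U' (α × β) _ (@codProd M' α β (codE h.inj) (codE h.inj)) ∧
    @Same M M' U U' ((α × β) × γ) _
      (@codProd M' (α × β) γ (@codProd M' α β (codE h.inj) (codE h.inj)) (codE h.inj)) ∧
    ∀ k : ℕ, @Same M M' U U' (Fin k → α) _ (@codFun M' k α (codE h.inj))

/-- EXB: definable objects in an extension -/
def T_EXB : Prop := ∀ {M M' : Type} (U : RU M) (U' : RU M') (e : M → M') (h : Ext U U' e),
  (∀ {α : Type} [Cod M α] [Ful U α], @Ful M' U' α (codE h.inj)) ∧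
  (∀ {α β : Type} [Cod M α] [Cod M β] (f : α → β), DFn U f →
    @DFn M' U' α β (codE h.inj) (codE h.inj) f) ∧
  (∀ {Γ : Type} [Group Γ] [Cod M Γ] [DG U Γ], @DG M' U' Γ _ (codE h.inj)) ∧
  (∀ {V : Type} [AddCommGroup V] [Cod M V] [DAb U V], @DAb M' U' V _ (codE h.inj)) ∧
  ∀ {G S : Type} [Group G] [MulAction G S] [Cod M G] [Cod M S] [DA U G S],
    @DA M' U' G S _ _ (codE h.inj) (codE h.inj)

/-- EXC: composition of extensions -/
def T_EXC : Prop := ∀ {M M' M'' : Type} (U : RU M) (U' : RU M') (U'' : RU M'') (e : M → M')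
  (e' : M' → M''), Ext U U' e → Ext U' U'' e' → Ext U U'' (e' ∘ e)

/-- QTY: quotients of definable types -/
def T_QTY : Prop := ∀ (C : ∀ M : Type, RU M → Prop), QClosed C → ∀ {M : Type} (U : RU M), C M U →
  ∀ {α : Type} [Cod M α] [Ful U α] (E : Setoid α), U.D {z : α × α | E.r z.1 z.2} →
  ∃ (M' : Type) (U' : RU M') (e : M → M') (h : Ext U U' e) (c : Cod M' (Quotient E)), C M' U' ∧
    Ful U' (Quotient E) ∧
    @DFn M' U' α (Quotient E) (codE h.inj) c (fun a => Quotient.mk E a)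

/-- QGP: quotient groups -/
def T_QGP : Prop := ∀ (C : ∀ M : Type, RU M → Prop), QClosed C → ∀ {M : Type} (U : RU M), C M U →
  ∀ {Γ : Type} [Group Γ] [Cod M Γ] [DG U Γ] (K : Subgroup Γ) [K.Normal], U.D (K : Set Γ) →
  ∃ (M' : Type) (U' : RU M') (e : M → M') (h : Ext U U' e) (c : Cod M' (Γ ⧸ K)), C M' U' ∧
    DG U' (Γ ⧸ K) ∧ @DFn M' U' Γ (Γ ⧸ K) (codE h.inj) c (fun g => (g : Γ ⧸ K))

/-- QMN: quotient of a definable action by an invariant definable equivalence relation -/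
def T_QMN : Prop := ∀ (C : ∀ M : Type, RU M → Prop), QClosed C → ∀ {M : Type} (U : RU M), C M U →
  ∀ {G S : Type} [Group G] [MulAction G S] [Cod M G] [Cod M S] [DG U G] [Ful U S] [DA U G S]
  (E : Setoid S), U.D {z : S × S | E.r z.1 z.2} →
  (∀ (g : G) (x y : S), E.r x y → E.r (g • x) (g • y)) →
  ∃ (M' : Type) (U' : RU M') (e : M → M') (h : Ext U U' e) (G' S' : Type) (_ : Group G')
    (_ : MulAction G' S') (cG : Cod M' G') (cS : Cod M' S') (p : G →* G') (q : S → S'),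
    C M' U' ∧ DG U' G' ∧ Ful U' S' ∧ DA U' G' S' ∧ FaithfulSMul G' S' ∧
    @Qt M' U' G S G' S' _ _ _ _ (codE h.inj) (codE h.inj) cG cS p q ∧
    ∀ x y, q x = q y ↔ E.r x y

/-- QMD: quotient of a module by an invariant subgroup -/
def T_QMD : Prop := ∀ (C : ∀ M : Type, RU M → Prop), QClosed C → ∀ {M : Type} (U : RU M), C M U →
  ∀ {G V : Type} [Group G] [AddCommGroup V] [DistribMulAction G V] [Cod M G] [Cod M V] [DG U G]
  [DAb U V] [DA U G V] (W : AddSubgroup V), U.D (W : Set V) → Iv (⊤ : Subgroup G) W →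
  ∃ (M' : Type) (U' : RU M') (e : M → M') (h : Ext U U' e) (G' V' : Type) (_ : Group G')
    (_ : AddCommGroup V') (_ : DistribMulAction G' V') (cG : Cod M' G') (cV : Cod M' V')
    (p : G →* G') (q : V →+ V'),
    C M' U' ∧ DG U' G' ∧ DAb U' V' ∧ DA U' G' V' ∧ FaithfulSMul G' V' ∧
    @Qt M' U' G V G' V' _ _ _ _ (codE h.inj) (codE h.inj) cG cV p q ∧
    ∀ v, q v = 0 ↔ v ∈ W

/-- RSA: the universe on a definable type -/
def T_RSA : Prop := ∀ {M : Type} (U : RU M) {α : Type} [Cod M α] [Ful U α],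
  ∃ U₀ : RU α, ∀ (ι : Type) [Finite ι] (A : Set (ι → α)),
    (U₀.Def ι A ↔ U.Def (ι × Cod.ι M α)
      ((fun (x : ι → α) (p : ι × Cod.ι M α) => Cod.c (M := M) (x p.1) p.2) '' A)) ∧
    U₀.rk ι A = U.rk (ι × Cod.ι M α)
      ((fun (x : ι → α) (p : ι × Cod.ι M α) => Cod.c (M := M) (x p.1) p.2) '' A)

/-- RSB: the universe on `G ⊕ S` -/
def T_RSB : Prop := ∀ {M : Type} [Nontrivial M] (U : RU M) {G S : Type} [Group G] [MulAction G S]
  [Cod M G] [Cod M S] [DG U G] [Ful U S] [DA U G S],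
  ∃ U₀ : RU (G ⊕ S), PG G S U₀ ∧ Same U U₀ G ∧ Same U U₀ S ∧ ∀ μ : ℕ, Same U U₀ (Fin μ → S)

/-! ## B. Groups -/

/-- CCE: the connected component -/
def T_CCE : Prop := ∀ {M : Type} (U : RU M) {Γ : Type} [Group Γ] [Cod M Γ] [DG U Γ]
  (H : Subgroup Γ), U.D (H : Set Γ) → Conn U (cc U H) ∧ cc U H ≤ H ∧
    U.R (cc U H : Set Γ) = U.R (H : Set Γ) ∧ (cc U H).relIndex H ≠ 0 ∧
    (∀ L : Subgroup Γ, L ≤ H → U.D (L : Set Γ) → U.R (H : Set Γ) ≤ U.R (L : Set Γ) →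
      cc U H ≤ L) ∧
    ∀ g : Γ, (∀ x, x ∈ H ↔ g * x * g⁻¹ ∈ H) → ∀ x, x ∈ cc U H ↔ g * x * g⁻¹ ∈ cc U H

/-- FCO: a connected group fixes the points with finite orbits -/
def T_FCO : Prop := ∀ {M : Type} (U : RU M) {G S : Type} [Group G] [MulAction G S] [Cod M G]
  [Cod M S] [DG U G] [Ful U S] [DA U G S] (H : Subgroup G) (s : S), Conn U H →
    {x : S | ∃ g ∈ H, x = g • s}.Finite → ∀ g ∈ H, g • s = s

/-- FCJ: a connected group centralizes the elements with finite classes -/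
def T_FCJ : Prop := ∀ {M : Type} (U : RU M) {Γ : Type} [Group Γ] [Cod M Γ] [DG U Γ]
  (H : Subgroup Γ) (x : Γ), Conn U H → {y : Γ | ∃ g ∈ H, y = g * x * g⁻¹}.Finite →
    ∀ g ∈ H, g * x = x * g

/-- CTD: centralizers, centralizers modulo a normal subgroup, normalizers, hulls -/
def T_CTD : Prop := ∀ {M : Type} (U : RU M) {Γ : Type} [Group Γ] [Cod M Γ] [DG U Γ],
  (∀ X : Set Γ, U.D (Subgroup.centralizer X : Set Γ)) ∧
  (∀ (N : Subgroup Γ) [N.Normal], U.D (N : Set Γ) → ∀ X : Set Γ,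
    U.D {g : Γ | ∀ x ∈ X, g * x * g⁻¹ * x⁻¹ ∈ N}) ∧
  (∀ H : Subgroup Γ, U.D (H : Set Γ) →
    U.D ((Subgroup.normalizer (H : Set Γ) : Subgroup Γ) : Set Γ)) ∧
  ∀ X : Subgroup Γ, U.D (hul U X : Set Γ)

/-- HMI: images and inverse images under a homomorphism -/
def T_HMI : Prop := ∀ {M : Type} (U : RU M) {Γ Δ : Type} [Group Γ] [Group Δ] [Cod M Γ] [Cod M Δ]
  [DG U Γ] [DG U Δ] (p : Γ →* Δ), DFn U (fun g => p g) →
  (∀ H : Subgroup Γ, U.D (H : Set Γ) → U.D ((H.map p : Subgroup Δ) : Set Δ) ∧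
    U.R (H : Set Γ) = U.R ((H.map p : Subgroup Δ) : Set Δ) +
      U.R ((H ⊓ p.ker : Subgroup Γ) : Set Γ) ∧
    (Conn U H → Conn U (H.map p))) ∧
  ∀ H' : Subgroup Δ, U.D (H' : Set Δ) → U.D ((H'.comap p : Subgroup Γ) : Set Γ) ∧
    (H' ≤ p.range → U.R ((H'.comap p : Subgroup Γ) : Set Γ) =
      U.R (H' : Set Δ) + U.R (p.ker : Set Γ))

/-- ABN: infinite solvable normal subgroups -/
def T_ABN : Prop := ∀ {M : Type} (U : RU M) {Γ : Type} [Group Γ] [Cod M Γ] [DG U Γ],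
  Conn U (⊤ : Subgroup Γ) → ∀ R : Subgroup Γ, R.Normal → Group.IsSolvable R →
    (R : Set Γ).Infinite → ∃ A : Subgroup Γ, A.Normal ∧ Conn U A ∧ (A : Set Γ).Infinite ∧
      ∀ a ∈ A, ∀ b ∈ A, a * b = b * a

/-- ORB: orbits and stabilizers -/
def T_ORB : Prop := ∀ {M : Type} (U : RU M) {G S : Type} [Group G] [MulAction G S] [Cod M G]
  [Cod M S] [DG U G] [Ful U S] [DA U G S] (H : Subgroup G) (s : S), U.D (H : Set G) →
    U.R (H : Set G) = U.R {x : S | ∃ g ∈ H, x = g • s} +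
      U.R ((H ⊓ MulAction.stabilizer G s : Subgroup G) : Set G)

/-! ## C. Abelian groups -/

/-- properties of definable abelian groups -/
structure ADT {M : Type} (U : RU M) (V : Type) [AddCommGroup V] [Cod M V] : Prop where
  idx : ∀ A B : AddSubgroup V, U.D (A : Set V) → U.D (B : Set V) → A ≤ B →
    (A.relIndex B ≠ 0 ↔ U.R (B : Set V) ≤ U.R (A : Set V))
  inf : ∀ s : Set (AddSubgroup V), (∀ A ∈ s, U.D (A : Set V)) →
    U.D ((sInf s : AddSubgroup V) : Set V)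
  sup : ∀ A B : AddSubgroup V, U.D (A : Set V) → U.D (B : Set V) →
    U.D ((A ⊔ B : AddSubgroup V) : Set V)
  comp : ∀ A : AddSubgroup V, U.D (A : Set V) → ∃ A0 : AddSubgroup V, A0 ≤ A ∧ CnS U A0 ∧
    U.R (A0 : Set V) = U.R (A : Set V) ∧ A0.relIndex A ≠ 0 ∧
    ∀ σ : V ≃+ V, DFn U (fun v => σ v) → (∀ v, v ∈ A ↔ σ v ∈ A) → ∀ v, v ∈ A0 ↔ σ v ∈ A0
  deg : ∀ A : AddSubgroup V, CnS U A → ∀ X Y : Set V, X ⊆ A → Y ⊆ A → U.D X → U.D Y →
    X.Nonempty → Y.Nonempty → U.R (A : Set V) ≤ U.R X → U.R (A : Set V) ≤ U.R Y →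
    (X ∩ Y).Nonempty

/-- ADT: every definable abelian group has these properties -/
def T_ADT : Prop := ∀ {M : Type} (U : RU M) (V : Type) [AddCommGroup V] [Cod M V] [DAb U V],
  ADT U V

/-- AHM: additive homomorphisms -/
def T_AHM : Prop := ∀ {M : Type} (U : RU M) {V V' : Type} [AddCommGroup V] [AddCommGroup V']
  [Cod M V] [Cod M V'] [DAb U V] [DAb U V'] (φ : V →+ V'), DFn U (fun v => φ v) →
  (∀ A : AddSubgroup V, U.D (A : Set V) → U.D ((A.map φ : AddSubgroup V') : Set V') ∧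
    U.R (A : Set V) = U.R ((A.map φ : AddSubgroup V') : Set V') +
      U.R ((A ⊓ φ.ker : AddSubgroup V) : Set V) ∧
    (CnS U A → CnS U (A.map φ))) ∧
  ∀ A' : AddSubgroup V', U.D (A' : Set V') → U.D ((A'.comap φ : AddSubgroup V) : Set V) ∧
    (A' ≤ φ.range → U.R ((A'.comap φ : AddSubgroup V) : Set V) =
      U.R (A' : Set V') + U.R (φ.ker : Set V))

/-- IRR: a definable set contains a definable set of the same rank and of degree 1 -/
def T_IRR : Prop := ∀ {M : Type} (U : RU M) {α : Type} [Cod M α] [Ful U α] (X : Set α), U.D X →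
  X.Nonempty → ∃ Y : Set α, Y ⊆ X ∧ U.D Y ∧ Y.Nonempty ∧ U.R Y = U.R X ∧
    ∀ Z Z' : Set α, Z ⊆ Y → Z' ⊆ Y → U.D Z → U.D Z' → Z.Nonempty → Z'.Nonempty →
      U.R Y ≤ U.R Z → U.R Y ≤ U.R Z' → (Z ∩ Z').Nonempty

/-- IN0: sums of a set contain an infinite definable subgroup -/
def T_IN0 : Prop := ∀ {M : Type} (U : RU M) {V : Type} [AddCommGroup V] [Cod M V] [DAb U V]
  (X : ℕ → Set V), (∀ k, U.D (X k)) → (∀ k, X k ⊆ X (k + 1)) → (∀ k, ∀ v ∈ X k, -v ∈ X k) →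
    (∀ k l, ∀ v ∈ X k, ∀ w ∈ X l, v + w ∈ X (k + l)) → (∃ k, (X k).Infinite) →
    ∃ (k : ℕ) (A : AddSubgroup V), U.D (A : Set V) ∧ (A : Set V).Infinite ∧ (A : Set V) ⊆ X k

/-! ## D. Modules -/

/-- MEX: minimal invariant subgroups -/
def T_MEX : Prop := ∀ {M : Type} (U : RU M) {G V : Type} [Group G] [AddCommGroup V]
  [DistribMulAction G V] [Cod M G] [Cod M V] [DG U G] [DAb U V] [DA U G V] (T : Subgroup G)
  (X : AddSubgroup V), U.D (X : Set V) → Iv T X → (X : Set V).Infinite →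
    ∃ W : AddSubgroup V, W ≤ X ∧ Mn U T W ∧ CnS U W

/-- MNC: minimal groups are connected -/
def T_MNC : Prop := ∀ {M : Type} (U : RU M) {G V : Type} [Group G] [AddCommGroup V]
  [DistribMulAction G V] [Cod M G] [Cod M V] [DG U G] [DAb U V] [DA U G V] (T : Subgroup G)
  (W : AddSubgroup V), Mn U T W → CnS U W

/-- IND: indecomposability -/
def T_IND : Prop := ∀ {M : Type} (U : RU M) {G V : Type} [Group G] [AddCommGroup V]
  [DistribMulAction G V] [Cod M G] [Cod M V] [DG U G] [DAb U V] [DA U G V] (T : Subgroup G)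
  (W : AddSubgroup V), U.D (T : Set G) → Mn U T W → ∀ w ∈ W,
    {v : V | ∃ t ∈ T, v = t • w}.Infinite → ∃ k : ℕ, ∀ v ∈ W, ∃ t t' : Fin k → G,
      (∀ i, t i ∈ T ∧ t' i ∈ T) ∧ v = ∑ i, (t i • w - t' i • w)

/-- ZFT: the field of a minimal group, in terms of the operators -/
def T_ZFT : Prop := ∀ {M : Type} (U : RU M) {G V : Type} [Group G] [AddCommGroup V]
  [DistribMulAction G V] [Cod M G] [Cod M V] [DG U G] [DAb U V] [DA U G V] (T : Subgroup G)
  (W : AddSubgroup V), Conn U T → (∀ a ∈ T, ∀ b ∈ T, a * b = b * a) → Mn U T W →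
    (∃ t ∈ T, ∃ w ∈ W, t • w ≠ w) →
    (∀ r ∈ Eg (V := V) T, (∀ w ∈ W, r w = 0) ∨
      ((∀ w ∈ W, r w = 0 → w = 0) ∧ ∀ w ∈ W, ∃ w' ∈ W, r w' = w)) ∧
    ∀ w ∈ W, w ≠ 0 → ∃ k : ℕ, ∀ v ∈ W, ∃ t t' : Fin k → G,
      (∀ i, t i ∈ T ∧ t' i ∈ T) ∧ v = ∑ i, (t i • w - t' i • w)

/-- AUT: connected groups of field automorphisms are trivial -/
def T_AUT : Prop := ∀ {M : Type} (U : RU M) {K G : Type} [Field K] [Cod M K] [DF U K]
  [Infinite K] [Group G] [Cod M G] [DG U G] (α : G →* (K ≃+* K)),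
    DFn U (fun p : G × K => α p.1 p.2) → Conn U (⊤ : Subgroup G) → ∀ g x, α g x = x

/-- CLA: a minimal module is a sum of conjugates of a minimal group of a normal subgroup -/
def T_CLA : Prop := ∀ {M : Type} (U : RU M) {G V : Type} [Group G] [AddCommGroup V]
  [DistribMulAction G V] [Cod M G] [Cod M V] [DG U G] [DAb U V] [DA U G V],
    Mn U (⊤ : Subgroup G) (⊤ : AddSubgroup V) → ∀ T : Subgroup G, T.Normal → U.D (T : Set G) →
    (∃ t ∈ T, ∃ v : V, t • v ≠ v) →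
    ∃ W : AddSubgroup V, Mn U T W ∧ (∃ t ∈ T, ∃ w ∈ W, t • w ≠ w) ∧
      ∃ (m : ℕ) (g : Fin m → G), ∀ v : V, ∃ w : Fin m → V, (∀ i, w i ∈ W) ∧
        v = ∑ i, g i • w i

/-- CLB: the annihilator of a minimal group is trivial -/
def T_CLB : Prop := ∀ {M : Type} (U : RU M) {G V : Type} [Group G] [AddCommGroup V]
  [DistribMulAction G V] [Cod M G] [Cod M V] [DG U G] [DAb U V] [DA U G V],
    Conn U (⊤ : Subgroup G) → Mn U (⊤ : Subgroup G) (⊤ : AddSubgroup V) →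
    ∀ T : Subgroup G, T.Normal → Conn U T → (∀ a ∈ T, ∀ b ∈ T, a * b = b * a) →
    ∀ W : AddSubgroup V, Mn U T W → (∃ t ∈ T, ∃ w ∈ W, t • w ≠ w) →
      (∃ (m : ℕ) (g : Fin m → G), ∀ v : V, ∃ w : Fin m → V, (∀ i, w i ∈ W) ∧
        v = ∑ i, g i • w i) →
      ∀ r ∈ Eg (V := V) T, (∀ w ∈ W, r w = 0) → ∀ v : V, r v = 0

/-- CFL: the field generated by a normal abelian subgroup -/
def T_CFL : Prop := ∀ {M : Type} (U : RU M) {G V : Type} [Group G] [AddCommGroup V]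
  [DistribMulAction G V] [Cod M G] [Cod M V] [DG U G] [DAb U V] [DA U G V],
    Conn U (⊤ : Subgroup G) → ∀ T : Subgroup G, T.Normal → U.D (T : Set G) →
    (∀ a ∈ T, ∀ b ∈ T, a * b = b * a) → ∀ W : AddSubgroup V, U.D (W : Set V) → Iv T W →
      (W : Set V).Infinite →
      (∀ r ∈ Eg (V := V) T, (∀ v : V, r v = 0) ∨ ∀ w ∈ W, r w = 0 → w = 0) →
      (∀ w ∈ W, w ≠ 0 → ∃ k : ℕ, ∀ v ∈ W, ∃ t t' : Fin k → G,
        (∀ i, t i ∈ T ∧ t' i ∈ T) ∧ v = ∑ i, (t i • w - t' i • w)) →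
      ∀ g : G, ∀ t ∈ T, ∀ v : V, (g * t * g⁻¹) • v = t • v

/-- CLI: connected abelian normal subgroups act centrally on minimal modules -/
def T_CLI : Prop := ∀ {M : Type} (U : RU M) {G V : Type} [Group G] [AddCommGroup V]
  [DistribMulAction G V] [Cod M G] [Cod M V] [DG U G] [DAb U V] [DA U G V],
    Conn U (⊤ : Subgroup G) → Mn U (⊤ : Subgroup G) (⊤ : AddSubgroup V) →
    ∀ T : Subgroup G, T.Normal → Conn U T → (∀ a ∈ T, ∀ b ∈ T, a * b = b * a) →
      ∀ g : G, ∀ t ∈ T, ∀ v : V, (g * t * g⁻¹) • v = t • v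

/-- UNI: central connected subgroups exclude high generic transitivity -/
def T_UNI : Prop := ∀ {M : Type} (U : RU M) {G V : Type} [Group G] [AddCommGroup V]
  [DistribMulAction G V] [Cod M G] [Cod M V] [DG U G] [DAb U V] [DA U G V],
    Mn U (⊤ : Subgroup G) (⊤ : AddSubgroup V) → ∀ T : Subgroup G, Conn U T →
    (∀ t ∈ T, ∀ g : G, t * g = g * t) → (∃ t ∈ T, ∃ v : V, t • v ≠ v) →
      ¬ GT U G V (U.R (univ : Set V) + 1)

/-- SBM: subgroups and invariant subgroups as groups -/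
def T_SBM : Prop := ∀ {M : Type} (U : RU M) {G V : Type} [Group G] [AddCommGroup V]
  [DistribMulAction G V] [Cod M G] [Cod M V] [DG U G] [DAb U V] [DA U G V] (H : Subgroup G)
  (W : AddSubgroup V) (h : Iv H W), U.D (H : Set G) → U.D (W : Set V) →
    DG U H ∧ DAb U W ∧ @DA M U H W _ (subAct H W h).toMulAction codSub codSub ∧
    (Conn U H → Conn U (⊤ : Subgroup H)) ∧
    (∀ T : Subgroup G, T ≤ H → Conn U T → Conn U (T.subgroupOf H)) ∧
    (Mn U H W → @Mn M U H W _ _ (subAct H W h) codSub (⊤ : Subgroup H) (⊤ : AddSubgroup W))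

/-- KUN: normalized abelian groups have infinite groups of fixed points -/
def T_KUN : Prop := ∀ {M : Type} (U : RU M) {H V : Type} [Group H] [AddCommGroup V]
  [DistribMulAction H V] [Cod M H] [Cod M V] [DG U H] [DAb U V] [DA U H V] [Infinite V]
  {L : Type} [Group L] (p : H →* L), Function.Surjective p → (p.ker : Set H).Finite →
    ∀ U1 : Subgroup L, U.D ((U1.comap p : Subgroup H) : Set H) →
    (∀ a ∈ U1, ∀ b ∈ U1, a * b = b * a) → Spl U1 →
      {v : V | ∀ g ∈ cc U (U1.comap p), g • v = v}.Infinite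

/-! ## E. Generic transitivity -/

/-- PWR: ranks of products of sets -/
def T_PWR : Prop := ∀ {M : Type} (U : RU M) {S : Type} [Cod M S] [Ful U S] (μ : ℕ)
  (X : Fin μ → Set S), (∀ i, U.D (X i)) → (∀ i, (X i).Nonempty) →
    U.D {x : Fin μ → S | ∀ i, x i ∈ X i} ∧
    U.R {x : Fin μ → S | ∀ i, x i ∈ X i} = ∑ i, U.R (X i)

/-- GTA: the rank of the group -/
def T_GTA : Prop := ∀ {M : Type} (U : RU M) {G S : Type} [Group G] [MulAction G S] [Cod M G]
  [Cod M S] [DG U G] [Ful U S] [DA U G S] (μ : ℕ), GT U G S μ →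
    μ * U.R (univ : Set S) ≤ U.R (univ : Set G)

/-- GTM: monotonicity -/
def T_GTM : Prop := ∀ {M : Type} (U : RU M) {G S : Type} [Group G] [MulAction G S] [Cod M G]
  [Cod M S] [DG U G] [Ful U S] [DA U G S] (μ : ℕ), GT U G S (μ + 1) → GT U G S μ

/-- GTQ: quotients -/
def T_GTQ : Prop := ∀ {M : Type} (U : RU M) {G S G' S' : Type} [Group G] [MulAction G S]
  [Group G'] [MulAction G' S'] [Cod M G] [Cod M S] [Cod M G'] [Cod M S'] [DG U G] [Ful U S]
  [DA U G S] [DG U G'] [Ful U S'] [DA U G' S'] (p : G →* G') (q : S → S'), DFn U q →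
    Function.Surjective q → (∀ g x, q (g • x) = p g • q x) →
    (∃ r : ℕ, ∀ y : S', U.R {x : S | q x = y} = r) → ∀ μ : ℕ, GT U G S μ → GT U G' S' μ

/-- GTS: stabilizers -/
def T_GTS : Prop := ∀ {M : Type} (U : RU M) {G S : Type} [Group G] [MulAction G S] [Cod M G]
  [Cod M S] [DG U G] [Ful U S] [DA U G S] (μ : ℕ), GT U G S (μ + 1) →
    ∃ x : S, U.R (MulAction.orbit G x) = U.R (univ : Set S) ∧
      GT U (MulAction.stabilizer G x) S μ

/-- GTO: chains of generic orbits -/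
def T_GTO : Prop := ∀ {M : Type} (U : RU M) {G S : Type} [Group G] [MulAction G S] [Cod M G]
  [Cod M S] [DG U G] [Ful U S] [DA U G S] (μ : ℕ), GT U G S μ →
    ∃ s : Fin μ → S, ∀ i : Fin μ,
      U.R {y : S | ∃ g : G, (∀ j, j < i → g • s j = s j) ∧ y = g • s i} =
        U.R (univ : Set S)

/-! ## F. Simple groups and products -/

/-- NPI: normal subgroups of products of simple groups -/
def T_NPI : Prop := ∀ {G I : Type} [Group G] [Finite I] {L : I → Type} [∀ i, Group (L i)]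
  (e : G ≃* ∀ i, L i), (∀ i, IsSimpleGroup (L i)) → (∀ i, ∃ a b : L i, a * b ≠ b * a) →
    ∀ X : Subgroup G, X.Normal → ∃ J : Set I, X = Nj e J

/-- QKK: quotients -/
def T_QKK : Prop := ∀ (P : ∀ L : Type, Group L → Prop), Good P → ∀ {G G' : Type} [Group G]
  [Group G'] (p : G →* G'), Function.Surjective p → KGr P G → KGr P G'

/-- PRD: products are definable -/
def T_PRD : Prop := ∀ {M : Type} (U : RU M) {G I : Type} [Group G] [Finite I] {L : I → Type}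
  [∀ i, Group (L i)] [Cod M G] [DG U G] (e : G ≃* ∀ i, L i),
    (∀ (i : I) (z : L i), (∀ a, a * z = z * a) → z = 1) → ∀ J : Set I,
      U.D (Nj e J : Set G) ∧ DFn U (pj e J)

/-- RPR: ranks of products -/
def T_RPR : Prop := ∀ {M : Type} (U : RU M) {G I : Type} [Group G] [Finite I] {L : I → Type}
  [∀ i, Group (L i)] [Cod M G] [DG U G] (e : G ≃* ∀ i, L i),
    (∀ (i : I) (z : L i), (∀ a, a * z = z * a) → z = 1) →
      (∀ J : Finset I, U.R (Nj e (J : Set I) : Set G) = ∑ i ∈ J, U.R (Nj e {i} : Set G)) ∧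
      Nj e (univ : Set I) = ⊤

/-- PBD: ranks of subgroups of products -/
def T_PBD : Prop := ∀ {M : Type} (U : RU M) {G I : Type} [Group G] [Finite I] {L : I → Type}
  [∀ i, Group (L i)] [Cod M G] [DG U G] (e : G ≃* ∀ i, L i), (∀ i, IsSimpleGroup (L i)) →
    (∀ i, ∃ a b : L i, a * b ≠ b * a) → ∀ c : I → ℕ,
    (∀ i, 2 * c i ≤ U.R (Nj e {i} : Set G)) →
    (∀ (i : I) (H : Subgroup G), H ≤ Nj e {i} → H ≠ Nj e {i} → U.D (H : Set G) →
      U.R (H : Set G) + c i ≤ U.R (Nj e {i} : Set G)) →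
    ∀ (J : Finset I) (P : Subgroup G), U.D (P : Set G) → P ≤ Nj e (J : Set I) →
      (∀ i ∈ J, ¬ Nj e {i} ≤ P) →
      U.R (P : Set G) + ∑ i ∈ J, c i ≤ U.R (Nj e (J : Set I) : Set G)

/-- SMA: the groups `PSL_m` are simple -/
def T_SMA : Prop := ∀ {F : Type} [Field F] [IsAlgClosed F] (m : ℕ), 2 ≤ m →
  IsSimpleGroup (Matrix.ProjectiveSpecialLinearGroup (Fin m) F) ∧
    ∃ a b : Matrix.ProjectiveSpecialLinearGroup (Fin m) F, a * b ≠ b * a

/-- PLB: bounds for `PSL_m` -/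
def T_PLB : Prop := ∀ {M : Type} (U : RU M) {L : Type} [Group L] [Cod M L] [DG U L]
  {F : Type} [Field F] [IsAlgClosed F] (m : ℕ),
    Nonempty (L ≃* Matrix.ProjectiveSpecialLinearGroup (Fin (m + 2)) F) → ∃ c, Bd U L c

/-- DLB: bounds for the types D, E -/
def T_DLB : Prop := ∀ {M : Type} (U : RU M) {L : Type} [Group L] [Cod M L] [DG U L]
  {F : Type} [Field F] [IsAlgClosed F] {l : ℕ} {C : Matrix (Fin l) (Fin l) ℤ}, Cartan C →
    Branch C → Nonempty (L ≃* Chev C F) → ∃ c, Bd U L c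

/-! ### simplicity -/

/-- the Borel subgroup, as a set -/
def Bo {l : ℕ} {C : Matrix (Fin l) (Fin l) ℤ} {F Γ : Type} [Field F] [Group Γ]
    (x : Root C → F → Γ) (τ : (Fin l → Fˣ) →* Γ) : Set Γ :=
  {b | ∃ (c : Fin l → Fˣ) (u : Γ), u ∈ Ug x IsPos ∧ b = τ c * u}

/-- `n` normalizes the torus and permutes the root groups, like the linear map `w` -/
def Wn {l : ℕ} {C : Matrix (Fin l) (Fin l) ℤ} {F Γ : Type} [Field F] [Group Γ]
    (x : Root C → F → Γ) (τ : (Fin l → Fˣ) →* Γ) (n : Γ)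
    (w : (Fin l → ℤ) ≃+ (Fin l → ℤ)) : Prop :=
  (∀ c, ∃ c', n * τ c * n⁻¹ = τ c') ∧ (∀ c, ∃ c', n⁻¹ * τ c * n = τ c') ∧
    ∀ γ : Root C, ∃ γ' : Root C, γ'.1 = w γ.1 ∧ (∀ t, ∃ t', n * x γ t * n⁻¹ = x γ' t') ∧
      ∀ t, ∃ t', n⁻¹ * x γ' t * n = x γ t'

/-- the height -/
def ht {l : ℕ} (v : Fin l → ℤ) : ℤ := ∑ i, v i

/-- NEL: the elements of the simple reflections -/
def T_NEL : Prop := ∀ {l : ℕ} {C : Matrix (Fin l) (Fin l) ℤ} (hC : Cartan C) {F Γ : Type}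
  [Field F] [Infinite F] [Group Γ] {x : Root C → F → Γ} {τ : (Fin l → Fˣ) →* Γ}, CD x τ →
    ∀ i : Fin l, ∃ (n : Γ) (w : (Fin l → ℤ) ≃+ (Fin l → ℤ)), Wn x τ n w ∧
      (∀ v, w v = v - ip C v (si i) • si i) ∧ (∃ c, n * n = τ c) ∧
      n = x (sr hC i) 1 * x (ng (sr hC i)) 1 * x (sr hC i) 1 ∧
      ∀ t : F, t ≠ 0 → ∃ a c b, x (ng (sr hC i)) t = x (sr hC i) a * τ c * n * x (sr hC i) b

/-- BRU: Bruhat decomposition -/
def T_BRU : Prop := ∀ {l : ℕ} {C : Matrix (Fin l) (Fin l) ℤ}, Cartan C → ∀ {F Γ : Type}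
  [Field F] [Infinite F] [Group Γ] {x : Root C → F → Γ} {τ : (Fin l → Fˣ) →* Γ}, CD x τ →
    ∀ g : Γ, ∃ b ∈ Bo x τ, ∃ n w, Wn x τ n w ∧ ∃ b' ∈ Bo x τ, g = b * n * b'

/-- UNQ: the roots of the same height are independent -/
def T_UNQ : Prop := ∀ {l : ℕ} {C : Matrix (Fin l) (Fin l) ℤ}, Cartan C → ∀ {F Γ : Type}
  [Field F] [Infinite F] [Group Γ] {x : Root C → F → Γ} {τ : (Fin l → Fˣ) →* Γ}, CD x τ →
    ∀ (γ : Root C) (t : F), IsPos γ →
      x γ t ∈ Ug x (fun δ => IsPos δ ∧ ht γ.1 ≤ ht δ.1 ∧ δ ≠ γ) → t = 0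

/-- SIR: normal subgroups which contain a root element -/
def T_SIR : Prop := ∀ {l : ℕ} {C : Matrix (Fin l) (Fin l) ℤ}, Cartan C → 2 ≤ l → ∀ {F Γ : Type}
  [Field F] [Infinite F] [Group Γ] {x : Root C → F → Γ} {τ : (Fin l → Fˣ) →* Γ}, CD x τ →
    ∀ X : Subgroup Γ, X.Normal → ∀ (γ : Root C) (t : F), t ≠ 0 → x γ t ∈ X → X = ⊤

/-- SIU: normal subgroups which meet the positive unipotent group -/
def T_SIU : Prop := ∀ {l : ℕ} {C : Matrix (Fin l) (Fin l) ℤ}, Cartan C → 2 ≤ l → ∀ {F Γ : Type}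
  [Field F] [Infinite F] [Group Γ] {x : Root C → F → Γ} {τ : (Fin l → Fˣ) →* Γ}, CD x τ →
    ∀ X : Subgroup Γ, X.Normal → ∀ u ∈ Ug x IsPos, u ∈ X → u ≠ 1 → X = ⊤

/-- SIM: simplicity -/
def T_SIM : Prop := ∀ {l : ℕ} {C : Matrix (Fin l) (Fin l) ℤ}, Cartan C → 2 ≤ l → ∀ {F Γ : Type}
  [Field F] [Infinite F] [Group Γ] {x : Root C → F → Γ} {τ : (Fin l → Fˣ) →* Γ}, CD x τ →
    IsSimpleGroup Γ ∧ ∃ a b : Γ, a * b ≠ b * a

/-- GSA: the class of the groups of type A, D, E -/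
def T_GSA : Prop := Good SA

/-! ### algebra of `PSL` -/

/-- AL1: the elations with a given centre -/
def T_AL1 : Prop := ∀ {G S F : Type} [Group G] [MulAction G S] [Field F] [IsAlgClosed F] (n : ℕ),
  1 ≤ n → NatAct G S F n → ∃ (s : S) (U1 : Subgroup G),
    (∀ g, g ∈ U1 ↔ ∀ u ∈ U1, g * u = u * g) ∧ Spl U1 ∧ (U1 : Set G).Infinite ∧
    ∀ s' : S, s' ≠ s → (MulAction.stabilizer G s').relIndex U1 = 0

/-- AL2: the root group of `PSL_2` -/
def T_AL2 : Prop := ∀ {L : Type} [Group L], PSL2 L → ∃ U1 : Subgroup L,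
  (∀ g, g ∈ U1 ↔ ∀ u ∈ U1, g * u = u * g) ∧ Spl U1 ∧ (U1 : Set L).Infinite ∧
  (∀ u ∈ U1, u ≠ 1 → ∀ v ∈ U1, v ≠ 1 → ∃ d : L, (∀ w, w ∈ U1 ↔ d * w * d⁻¹ ∈ U1) ∧
    d * u * d⁻¹ = v) ∧
  (∀ h : L, (¬ ∀ w, w ∈ U1 ↔ h * w * h⁻¹ ∈ U1) → ∀ Y : Subgroup L, U1 ≤ Y →
    (∀ w ∈ U1, h * w * h⁻¹ ∈ Y) → Y = ⊤) ∧
  ∃ h : L, ¬ ∀ w, w ∈ U1 ↔ h * w * h⁻¹ ∈ U1

/-- NTF: finite stabilizers of points of the projective space are trivial -/
def T_NTF : Prop := ∀ {G S F : Type} [Group G] [MulAction G S] [Field F] [IsAlgClosed F] (n : ℕ),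
  NatAct G S F n → ∀ (k : ℕ) (y : Fin k → S), {g : G | ∀ i, g • y i = y i}.Finite →
    ∀ g : G, (∀ i, g • y i = y i) → g = 1

/-- NTR: transport of the natural action -/
def T_NTR : Prop := ∀ {G S G' S' F : Type} [Group G] [MulAction G S] [Group G']
  [MulAction G' S'] [Field F] (n : ℕ), NatAct G' S' F n → ∀ (p : G →* G') (q : S → S'),
    Function.Bijective p → Function.Bijective q → (∀ g x, q (g • x) = p g • q x) →
    NatAct G S F n

/-- NAC: identification of the natural action -/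
def T_NAC : Prop := ∀ {M : Type} (U : RU M) {G S : Type} [Group G] [MulAction G S] [Cod M G]
  [Cod M S] [DG U G] [Ful U S] [DA U G S], MulAction.IsPretransitive G S → FaithfulSMul G S →
    ∀ {F : Type} [Field F] [IsAlgClosed F] (m : ℕ), 2 ≤ m →
    Nonempty (G ≃* Matrix.ProjectiveSpecialLinearGroup (Fin m) F) →
    1 ≤ U.R (univ : Set S) →
    U.R (univ : Set S) * (U.R (univ : Set S) + 2) ≤ U.R (univ : Set G) →
    m = U.R (univ : Set S) + 1 ∧ NatAct G S F (U.R (univ : Set S))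

/-! ### semisimple groups -/

/-- ARI: arithmetic -/
def T_ARI : Prop := ∀ {I : Type} [Fintype I] (c r : I → ℕ) (Q : I → ℕ → ℕ → Prop) (n : ℕ),
  1 ≤ n → (∀ i, 1 ≤ c i) →
  (∀ i, r i < c i * (c i + 1) ∨ ∃ m f : ℕ, Q i m f ∧ 1 ≤ f ∧ c i = (m + 1) * f ∧
    r i = (m + 3) * c i) → ∑ i, c i ≤ n → n * (n + 1) ≤ ∑ i, r i →
  (∃ i, (∀ k, k = i) ∧ c i = n ∧ ((∃ m, Q i m 1 ∧ m + 1 = n ∧ r i = n * (n + 2)) ∨
    (Q i 0 2 ∧ n = 2 ∧ r i = 6))) ∨
  (n = 2 ∧ ∃ i j, i ≠ j ∧ (∀ k, k = i ∨ k = j) ∧ Q i 0 1 ∧ Q j 0 1 ∧ c i = 1 ∧ c j = 1 ∧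
    r i = 3 ∧ r j = 3)

/-- the possibilities for semisimple groups of rank at least `n (n + 1)` -/
def SSo {M : Type} (U : RU M) {G S I : Type} {L : I → Type} [Group G] [MulAction G S]
    [Cod M G] [Cod M S] [∀ i, Group (L i)] (e : G ≃* ∀ i, L i) (n : ℕ) : Prop :=
  (U.R (univ : Set G) = n * (n + 2) ∧
    (∀ Y : Subgroup G, U.D (Y : Set G) → Y ≠ ⊤ → U.R (Y : Set G) + n ≤ U.R (univ : Set G)) ∧
    ∃ (F : Type) (_ : Field F) (_ : IsAlgClosed F), NatAct G S F n) ∨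
  (n = 2 ∧ U.R (univ : Set G) = 6 ∧
    (∀ Y : Subgroup G, U.D (Y : Set G) → Y ≠ ⊤ → U.R (Y : Set G) + 2 ≤ U.R (univ : Set G)) ∧
    PSL2 G) ∨
  (n = 2 ∧ U.R (univ : Set G) = 6 ∧ ∃ i j, i ≠ j ∧ (∀ k, k = i ∨ k = j) ∧ PSL2 (L i) ∧
    PSL2 (L j) ∧ Conn U (Nj e {i}) ∧ Conn U (Nj e {j}))

/-- SSR: actions of semisimple groups -/
def T_SSR : Prop := ∀ (P : ∀ L : Type, Group L → Prop), Good P → ∀ {M : Type} (U : RU M)
  {G S I : Type} {L : I → Type} [Group G] [MulAction G S] [Cod M G] [Cod M S] [DG U G]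
  [Ful U S] [DA U G S] [Finite I] [iL : ∀ i, Group (L i)] (e : G ≃* ∀ i, L i),
    (∀ i, P (L i) (iL i)) → MulAction.IsPretransitive G S → FaithfulSMul G S →
    ∀ n : ℕ, U.R (univ : Set S) = n → 1 ≤ n → n * (n + 1) ≤ U.R (univ : Set G) →
      SSo U (S := S) e n

/-! ## G. Modules of semisimple groups -/

/-- MC1: natural quotient -/
def T_MC1 : Prop := ∀ {M : Type} (U : RU M) {H V : Type} [Group H] [AddCommGroup V]
  [DistribMulAction H V] [Cod M H] [Cod M V] [DG U H] [DAb U V] [DA U H V],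
    Conn U (⊤ : Subgroup H) → Mn U (⊤ : Subgroup H) (⊤ : AddSubgroup V) →
    (∀ Y : Subgroup H, U.D (Y : Set H) → Y ≠ ⊤ →
      U.R (Y : Set H) + U.R (univ : Set V) ≤ U.R (univ : Set H)) →
    ∀ {G' S' F : Type} [Group G'] [MulAction G' S'] [Field F] [IsAlgClosed F] (n : ℕ), 1 ≤ n →
    NatAct G' S' F n → ∀ p : H →* G', Function.Surjective p → (p.ker : Set H).Finite →
    ∀ (x : V) (q : V → S'), (∀ h : H, ∀ y ∈ MulAction.orbit H x, q (h • y) = p h • q y) →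
      (∀ s : S', {y : V | y ∈ MulAction.orbit H x ∧ q y = s}.Finite) → False

/-- MC2: quotient `PSL_2` -/
def T_MC2 : Prop := ∀ {M : Type} (U : RU M) {H V : Type} [Group H] [AddCommGroup V]
  [DistribMulAction H V] [Cod M H] [Cod M V] [DG U H] [DAb U V] [DA U H V],
    Conn U (⊤ : Subgroup H) → Mn U (⊤ : Subgroup H) (⊤ : AddSubgroup V) →
    (∀ Y : Subgroup H, U.D (Y : Set H) → Y ≠ ⊤ →
      U.R (Y : Set H) + U.R (univ : Set V) ≤ U.R (univ : Set H)) →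
    ∀ {L : Type} [Group L], PSL2 L → ∀ p : H →* L, Function.Surjective p →
      (p.ker : Set H).Finite → ∀ (h : H) (v : V), h • v = v

/-- MC3: quotient a product of two groups `PSL_2` -/
def T_MC3 : Prop := ∀ {M : Type} (U : RU M) {H V : Type} [Group H] [AddCommGroup V]
  [DistribMulAction H V] [Cod M H] [Cod M V] [DG U H] [DAb U V] [DA U H V],
    Conn U (⊤ : Subgroup H) → Mn U (⊤ : Subgroup H) (⊤ : AddSubgroup V) → FaithfulSMul H V →
    U.R (univ : Set V) = 2 → ∀ {G' I : Type} {L : I → Type} [Group G'] [Cod M G'] [DG U G']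
    [∀ i, Group (L i)] (e : G' ≃* ∀ i, L i) (i j : I), i ≠ j → (∀ k, k = i ∨ k = j) →
    PSL2 (L i) → PSL2 (L j) → U.D (Nj e {i} : Set G') → Conn U (Nj e {j}) →
    ∀ p : H →* G', DFn U (fun g => p g) → Function.Surjective p → (p.ker : Set H).Finite →
      False

/-! ## H. Assembly -/

/-- FRD: the quotient by a finite radical -/
def T_FRD : Prop := ∀ (P : ∀ L : Type, Group L → Prop), Good P →
  ∀ (C : ∀ M : Type, RU M → Prop), QClosed C → ∀ {M : Type} (U : RU M), C M U →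
  ∀ {G S I : Type} {L : I → Type} [Group G] [MulAction G S] [Cod M G] [Cod M S] [DG U G]
  [Ful U S] [DA U G S] [Finite I] [iL : ∀ i, Group (L i)] (π : G →* ∀ i, L i),
    Conn U (⊤ : Subgroup G) → MulAction.IsPretransitive G S → FaithfulSMul G S →
    (∀ i, P (L i) (iL i)) → Function.Surjective π → (π.ker : Set G).Finite →
  ∃ (M' : Type) (U' : RU M') (e : M → M') (h : Ext U U' e) (G' S' : Type) (_ : Group G')
    (_ : MulAction G' S') (cG : Cod M' G') (cS : Cod M' S') (p : G →* G') (q : S → S')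
    (j : G' ≃* ∀ i, L i),
    C M' U' ∧ DG U' G' ∧ Ful U' S' ∧ DA U' G' S' ∧ FaithfulSMul G' S' ∧
    MulAction.IsPretransitive G' S' ∧
    @Qt M' U' G S G' S' _ _ _ _ (codE h.inj) (codE h.inj) cG cS p q ∧
    (∀ g, j (p g) = π g) ∧ (∀ x y, q x = q y ↔ ∃ r ∈ π.ker, y = r • x) ∧
    U'.R (univ : Set G') = U.R (univ : Set G) ∧ U'.R (univ : Set S') = U.R (univ : Set S)

/-- RON: finite radicals are trivial -/
def T_RON : Prop := ∀ {M : Type} (U : RU M) {G S : Type} [Group G] [MulAction G S] [Cod M G]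
  [Cod M S] [DG U G] [Ful U S] [DA U G S], Conn U (⊤ : Subgroup G) →
    MulAction.IsPretransitive G S → FaithfulSMul G S → ∀ n : ℕ, 1 ≤ n →
    U.R (univ : Set S) = n → U.R (univ : Set G) = n * (n + 2) → GT U G S (n + 2) →
    ∀ {G' S' F : Type} [Group G'] [MulAction G' S'] [Field F] [IsAlgClosed F],
    NatAct G' S' F n → ∀ (p : G →* G') (q : S → S'), Function.Surjective p →
    Function.Surjective q → (∀ g x, q (g • x) = p g • q x) → (p.ker : Set G).Finite →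
    (∀ x y, q x = q y → ∃ r ∈ p.ker, y = r • x) → p.ker = ⊥

/-- FI1: the case of a finite radical -/
def T_FI1 : Prop := ∀ (P : ∀ L : Type, Group L → Prop), Good P →
  ∀ (C : ∀ M : Type, RU M → Prop), QClosed C → ∀ {M : Type} (U : RU M), C M U →
  ∀ {G S I : Type} {L : I → Type} [Group G] [MulAction G S] [Cod M G] [Cod M S] [DG U G]
  [Ful U S] [DA U G S] [Finite I] [iL : ∀ i, Group (L i)] (π : G →* ∀ i, L i),
    Conn U (⊤ : Subgroup G) → MulAction.IsPretransitive G S → FaithfulSMul G S →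
    (∀ i, P (L i) (iL i)) → Function.Surjective π → (π.ker : Set G).Finite →
    ∀ n t : ℕ, U.R (univ : Set S) = n → 1 ≤ n → GT U G S t → n + 2 ≤ t →
      t = n + 2 ∧ ∃ (F : Type) (_ : Field F) (_ : IsAlgClosed F), NatAct G S F n

/-- REG: a transitive connected abelian normal subgroup -/
def T_REG : Prop := ∀ {M : Type} (U : RU M) {G S : Type} [Group G] [MulAction G S] [Cod M G]
  [Cod M S] [DG U G] [Ful U S] [DA U G S], Conn U (⊤ : Subgroup G) → FaithfulSMul G S →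
    ∀ A : Subgroup G, A.Normal → Conn U A → (∀ a ∈ A, ∀ b ∈ A, a * b = b * a) →
    (∀ x y : S, ∃ a ∈ A, a • x = y) → ∀ x : S,
    ∃ (V : Type) (_ : AddCommGroup V) (_ : DistribMulAction (MulAction.stabilizer G x) V)
      (_ : Cod M V) (j : V → S) (p : G →* MulAction.stabilizer G x),
      DG U (MulAction.stabilizer G x) ∧ DA U (MulAction.stabilizer G x) S ∧
      Conn U (⊤ : Subgroup (MulAction.stabilizer G x)) ∧ DAb U V ∧
      DA U (MulAction.stabilizer G x) V ∧ CnS U (⊤ : AddSubgroup V) ∧ Function.Bijective j ∧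
      DFn U j ∧ (∀ (h : MulAction.stabilizer G x) (v : V), j (h • v) = h • j v) ∧
      Function.Surjective p

/-- MD1: minimal modules, infinite radical -/
def T_MD1 : Prop := ∀ {M : Type} (U : RU M) {H V : Type} [Group H] [AddCommGroup V]
  [DistribMulAction H V] [Cod M H] [Cod M V] [DG U H] [DAb U V] [DA U H V],
    Conn U (⊤ : Subgroup H) → Mn U (⊤ : Subgroup H) (⊤ : AddSubgroup V) → FaithfulSMul H V →
    ∀ R : Subgroup H, R.Normal → Group.IsSolvable R → (R : Set H).Infinite →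
      ¬ GT U H V (U.R (univ : Set V) + 1)

/-- MD2: minimal modules, finite radical -/
def T_MD2 : Prop := ∀ (P : ∀ L : Type, Group L → Prop), Good P →
  ∀ (C : ∀ M : Type, RU M → Prop), QClosed C → ∀ {M : Type} (U : RU M), C M U →
  ∀ {H V I : Type} {L : I → Type} [Group H] [AddCommGroup V] [DistribMulAction H V] [Cod M H]
  [Cod M V] [DG U H] [DAb U V] [DA U H V] [Finite I] [iL : ∀ i, Group (L i)]
  (π : H →* ∀ i, L i),
    Conn U (⊤ : Subgroup H) → Mn U (⊤ : Subgroup H) (⊤ : AddSubgroup V) → FaithfulSMul H V →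
    (∀ i, P (L i) (iL i)) → Function.Surjective π → (π.ker : Set H).Finite →
      ¬ GT U H V (U.R (univ : Set V) + 1)

/-- MOD: modules -/
def T_MOD : Prop := ∀ (P : ∀ L : Type, Group L → Prop), Good P →
  ∀ (C : ∀ M : Type, RU M → Prop), QClosed C → ∀ {M : Type} (U : RU M), C M U →
  ∀ {H V : Type} [Group H] [AddCommGroup V] [DistribMulAction H V] [Cod M H] [Cod M V]
  [DG U H] [DAb U V] [DA U H V], KGr P H → Conn U (⊤ : Subgroup H) →
    CnS U (⊤ : AddSubgroup V) → 1 ≤ U.R (univ : Set V) → ¬ GT U H V (U.R (univ : Set V) + 1)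

/-- MAN: the theorem for coded groups -/
def T_MAN : Prop := ∀ (P : ∀ L : Type, Group L → Prop), Good P →
  ∀ (C : ∀ M : Type, RU M → Prop), QClosed C → ∀ {M : Type} (U : RU M), C M U →
  ∀ {G S : Type} [Group G] [MulAction G S] [Cod M G] [Cod M S] [DG U G] [Ful U S] [DA U G S],
    Conn U (⊤ : Subgroup G) → MulAction.IsPretransitive G S → FaithfulSMul G S → KGr P G →
    ∀ n t : ℕ, U.R (univ : Set S) = n → 1 ≤ n → GT U G S t → n + 2 ≤ t →
      t = n + 2 ∧ ∃ (F : Type) (_ : Field F) (_ : IsAlgClosed F), NatAct G S F n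

/-- FNK: the theorem -/
def T_FNK : Prop := ∀ (C : ∀ M : Type, RU M → Prop), QClosed C → ∀ {G S : Type} [Group G]
  [MulAction G S] (U : RU (G ⊕ S)), C (G ⊕ S) U → PG G S U → Conn U (⊤ : Subgroup G) →
    MulAction.IsPretransitive G S → FaithfulSMul G S → KGr SA G → 1 ≤ U.R (univ : Set S) →
    ∀ t : ℕ, GenTr U t → t ≤ U.R (univ : Set S) + 2 ∧
      (t = U.R (univ : Set S) + 2 → ∃ (F : Type) (_ : Field F) (_ : IsAlgClosed F),
        NatAct G S F (U.R (univ : Set S)))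

end Pool.Agent.H77.KG
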