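import Pool.Agent.H77.KG.Targets

/-!
# Targets, second part (board kgr_modules, page H77_KGR.md): fields, connected solvable groups

Used by Theorem S (page H78_S.md).
-/

set_option autoImplicit false

open Set Pool.Agent.H77.BC Pool.Agent.H77.BD

namespace Pool.Agent.H77.KG

/-- MAL: pure algebra for Macintyre's theorem -/
def T_MAL : Prop := ∀ {K : Type} [Field K],
  (∀ (L : Type) [Field L] [Algebra K L] [FiniteDimensional K L],
    (∀ q : ℕ, 0 < q → ∀ x : L, ∃ y : L, y ^ q = x) ∧
      ∀ p : ℕ, p.Prime → CharP L p → ∀ x : L, ∃ y : L, y ^ p - y = x) → IsAlgClosed K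

/-- MAC: infinite definable fields are algebraically closed (Macintyre) -/
def T_MAC : Prop := ∀ {M : Type} (U : RU M) {K : Type} [Field K] [Cod M K] [DF U K] [Infinite K],
  IsAlgClosed K

/-- VFD: a central connected subgroup makes a minimal module a finite dimensional vector space
over a field which contains the centre -/
def T_VFD : Prop := ∀ {M : Type} (U : RU M) {G V : Type} [Group G] [AddCommGroup V]
  [DistribMulAction G V] [Cod M G] [Cod M V] [DG U G] [DAb U V] [DA U G V],
    Conn U (⊤ : Subgroup G) → Mn U (⊤ : Subgroup G) (⊤ : AddSubgroup V) →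
    ∀ T : Subgroup G, Conn U T → (∀ t ∈ T, ∀ g : G, t * g = g * t) →
    (∃ t ∈ T, ∃ v : V, t • v ≠ v) →
    ∃ (K : Type) (_ : Field K) (_ : Module K V), FiniteDimensional K V ∧
      (∀ (g : G) (k : K) (v : V), g • (k • v) = k • (g • v)) ∧
      ∀ z ∈ Subgroup.center G, ∃ k : K, ∀ v : V, z • v = k • v

/-- CCF: finitely many commutators are central -/
def T_CCF : Prop := ∀ {M : Type} (U : RU M) {G V : Type} [Group G] [AddCommGroup V]
  [DistribMulAction G V] [Cod M G] [Cod M V] [DG U G] [DAb U V] [DA U G V],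
    Conn U (⊤ : Subgroup G) → Mn U (⊤ : Subgroup G) (⊤ : AddSubgroup V) → FaithfulSMul G V →
    {c : G | c ∈ Subgroup.center G ∧ ∃ a t : G, c = t * a * t⁻¹ * a⁻¹}.Finite

/-- MLC: connected solvable groups act on minimal modules as abelian groups (Malcev) -/
def T_MLC : Prop := ∀ {M : Type} (U : RU M) {G V : Type} [Group G] [AddCommGroup V]
  [DistribMulAction G V] [Cod M G] [Cod M V] [DG U G] [DAb U V] [DA U G V],
    Conn U (⊤ : Subgroup G) → Mn U (⊤ : Subgroup G) (⊤ : AddSubgroup V) → FaithfulSMul G V →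
    Group.IsSolvable G → ∀ a b : G, a * b = b * a

end Pool.Agent.H77.KG
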